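import Pool.Agent.Results.MP_8013b9_lc.NotStarCharacterized

/-!
# Logically equivalent states that are not related by a sum-bisimulation

Let `V` be a set of reals in `(0, 1)` such that neither `V` nor its complement in `(0, 1)` contains a
Borel set of positive measure.  The first process has the points of `V` and one more state, and the
second process has the points of the complement of `V` and one more state.  A point `r` jumps to
itself with the probability `r / 2`, and the extra state jumps to a point chosen by the (outer)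
Lebesgue measure.  The extra states are logically equivalent, but no point of `V` can be related to
any point of the second process, so the set of the points related to `V` is closed and its
probabilities are `1` and `0`.
-/

set_option autoImplicit false

namespace Pool.Agent.Results.MP_e518dc_lc.NotSumBisimilar

open MeasureTheory Set
open scoped ENNReal Topology

/-- Labelled Markov processes with the set of labels `L` on the measurable space `S`. -/
structure LMP (L S : Type) [MeasurableSpace S] where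
  /-- The transition measures. -/
  τ : L → S → Measure S
  le_one : ∀ a s, τ a s univ ≤ 1
  measurable : ∀ a X, MeasurableSet X → Measurable fun s => τ a s X

/-- The formulas of the logic. -/
inductive Formula (L : Type) where
  | top : Formula L
  | and : Formula L → Formula L → Formula L
  | dia : L → {q : ℚ // 0 ≤ q ∧ q ≤ 1} → Formula L → Formula L

/-- Satisfaction. -/
def Sat {L S : Type} [MeasurableSpace S] (M : LMP L S) : Formula L → S → Prop
  | .top, _ => True
  | .and φ ψ, s => Sat M φ s ∧ Sat M ψ s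
  | .dia a q φ, s => ENNReal.ofReal (q.1 : ℝ) ≤ M.τ a s {t | Sat M φ t}

/-- Two states are logically equivalent if they satisfy the same formulas. -/
def LogEquiv {L S S' : Type} [MeasurableSpace S] [MeasurableSpace S'] (M : LMP L S) (M' : LMP L S')
    (s : S) (s' : S') : Prop := ∀ φ : Formula L, Sat M φ s ↔ Sat M' φ s'

/-- The kernel of the sum process. -/
noncomputable def sumτ {L S S' : Type} [MeasurableSpace S] [MeasurableSpace S'] (M : LMP L S)
    (M' : LMP L S') (a : L) : S ⊕ S' → Set (S ⊕ S') → ℝ≥0∞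
  | .inl s, A => M.τ a s (Sum.inl ⁻¹' A)
  | .inr s', A => M'.τ a s' (Sum.inr ⁻¹' A)

/-- `A` is closed under `R`: every point related in either direction to a point of `A` is in `A`. -/
def IsClosedFor {X : Type} (R : X → X → Prop) (A : Set X) : Prop :=
  ∀ x ∈ A, ∀ y, (R x y ∨ R y x) → y ∈ A

/-- Sum-bisimulations between two processes. -/
def IsSumBisimulation {L S S' : Type} [MeasurableSpace S] [MeasurableSpace S'] (M : LMP L S)
    (M' : LMP L S') (R : S ⊕ S' → S ⊕ S' → Prop) : Prop :=
  Equivalence R ∧ ∀ x y : S ⊕ S', R x y → x.isLeft ≠ y.isLeft → ∀ a : L, ∀ A : Set (S ⊕ S'),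
    IsClosedFor R A → MeasurableSet (Sum.inl ⁻¹' A) → MeasurableSet (Sum.inr ⁻¹' A) →
      sumτ M M' a x A = sumτ M M' a y A

/-! ## Thick sets -/

/-- The uniform probability on `(0, 1)`. -/
noncomputable def μ : Measure ℝ := volume.restrict (Ioo 0 1)

theorem μ_univ : μ univ = 1 := by
  rw [μ, Measure.restrict_apply_univ, Real.volume_Ioo]
  simp

instance : IsProbabilityMeasure μ := ⟨μ_univ⟩

/-- A set of reals is thick if the complement contains no measurable set of positive measure. -/
def Thick (W : Set ℝ) : Prop := ∀ B : Set ℝ, MeasurableSet B → B ∩ W = ∅ → μ B = 0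

theorem Thick.inter {W : Set ℝ} (hW : Thick W) {B : Set ℝ} (hB : MeasurableSet B) :
    μ (B ∩ W) = μ B := by
  refine le_antisymm (measure_mono inter_subset_left) ?_
  set C := toMeasurable μ (B ∩ W) with hC
  have h1 : μ C = μ (B ∩ W) := measure_toMeasurable _
  have h2 : μ (B \ C) = 0 := by
    refine hW _ (hB.diff (measurableSet_toMeasurable _ _)) ?_
    rw [eq_empty_iff_forall_notMem]
    rintro x ⟨⟨h3, h4⟩, h5⟩
    exact h4 (subset_toMeasurable μ _ ⟨h3, h5⟩)
  rw [← h1]
  calc μ B ≤ μ (C ∪ B \ C) := measure_mono fun x hx => by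
        by_cases h : x ∈ C
        · exact Or.inl h
        · exact Or.inr ⟨hx, h⟩
    _ ≤ μ C + μ (B \ C) := measure_union_le _ _
    _ = μ C := by rw [h2, add_zero]

/-- The trace of `μ` on a set. -/
noncomputable def trace (W : Set ℝ) : Measure W :=
  (OuterMeasure.comap (Subtype.val : W → ℝ) μ.toOuterMeasure).toMeasure (by
    rintro _ ⟨B, hB, rfl⟩
    rw [OuterMeasure.isCaratheodory_iff]
    intro T
    change μ (Subtype.val '' T) = μ (Subtype.val '' (T ∩ Subtype.val ⁻¹' B)) +
      μ (Subtype.val '' (T \ Subtype.val ⁻¹' B))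
    rw [image_inter_preimage, image_sdiff_preimage]
    exact (measure_inter_add_sdiff _ hB).symm)

theorem trace_apply {W : Set ℝ} (hW : Thick W) {B : Set ℝ} (hB : MeasurableSet B) :
    trace W (Subtype.val ⁻¹' B) = μ B := by
  rw [trace, toMeasure_apply _ _ (measurable_subtype_coe hB)]
  change μ (Subtype.val '' (Subtype.val ⁻¹' B)) = μ B
  rw [Subtype.image_preimage_coe, inter_comm]
  exact hW.inter hB

/-- There is a set such that both the set and its complement are thick. -/
theorem exists_thick : ∃ V : Set ℝ, Thick V ∧ Thick Vᶜ := by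
  obtain ⟨f, -, hf⟩ := Pool.Agent.Results.MP_8013b9_lc.NotStarCharacterized.exists_functional
    (ι := ℕ) (by rw [Cardinal.mk_nat]; exact Cardinal.aleph0_le_continuum)
    (fun n => Ioo (0 : ℝ) (1 / ((n : ℝ) + 1))) (fun n => by
      rw [Cardinal.mk_Ioo_real (by positivity)])
  choose t ht ht1 using hf
  have key : ∀ B : Set ℝ, MeasurableSet B →
      (∀ x ∈ B, ∀ y ∈ B, (Even ⌊f x⌋ ↔ Even ⌊f y⌋)) → μ B = 0 := by
    intro B hB hpar
    by_contra hcon
    set E := B ∩ Ioo 0 1 with hE
    have hE1 : volume E ≠ 0 := by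
      rw [μ, Measure.restrict_apply hB] at hcon
      exact hcon
    have h1 := Measure.sub_mem_nhds_zero_of_addHaar_pos (μ := volume) E (hB.inter measurableSet_Ioo)
      (pos_iff_ne_zero.2 hE1)
    rw [Metric.mem_nhds_iff] at h1
    obtain ⟨ε, hε, h1⟩ := h1
    obtain ⟨n, hn⟩ := exists_nat_one_div_lt hε
    have h2 : t n ∈ Metric.ball (0 : ℝ) ε := by
      rw [Metric.mem_ball, Real.dist_eq, sub_zero, abs_of_pos (ht n).1]
      exact (ht n).2.trans hn
    obtain ⟨x, hx, y, hy, hxy⟩ := h1 h2
    have h3 : f x = f y + 1 := by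
      rw [← ht1 n, ← hxy, map_sub]
      ring
    have h4 := hpar x hx.1 y hy.1
    rw [h3, Int.floor_add_one, Int.even_add_one] at h4
    by_cases h5 : Even ⌊f y⌋
    · exact h4.2 h5 h5
    · exact h5 (h4.1 h5)
  refine ⟨{x | Even ⌊f x⌋}, fun B hB h => key B hB ?_, fun B hB h => key B hB ?_⟩
  · intro x hx y hy
    have h1 : ∀ z ∈ B, ¬ Even ⌊f z⌋ := fun z hz hz' => by
      have : z ∈ B ∩ {x | Even ⌊f x⌋} := ⟨hz, hz'⟩
      rw [h] at this
      exact this
    exact iff_of_false (h1 x hx) (h1 y hy)
  · intro x hx y hy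
    have h1 : ∀ z ∈ B, Even ⌊f z⌋ := fun z hz => by
      by_contra hz'
      have : z ∈ B ∩ {x | Even ⌊f x⌋}ᶜ := ⟨hz, hz'⟩
      rw [h] at this
      exact this
    exact iff_of_true (h1 x hx) (h1 y hy)

/-! ## The processes -/

theorem Thick.unit {W : Set ℝ} (hW : Thick W) : Thick (W ∩ Ioo 0 1) := by
  intro B hB h
  have h1 : μ (B ∩ Ioo 0 1) = 0 := by
    refine hW _ (hB.inter measurableSet_Ioo) ?_
    rw [eq_empty_iff_forall_notMem] at h ⊢
    rintro x ⟨⟨h1, h2⟩, h3⟩
    exact h x ⟨h1, h3, h2⟩
  rw [μ, Measure.restrict_apply (hB.inter measurableSet_Ioo)] at h1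
  rw [μ, Measure.restrict_apply hB]
  rw [inter_assoc, inter_self] at h1
  exact h1

/-- The states of the process attached to `W`. -/
abbrev St (W : Set ℝ) : Type := Unit ⊕ ↥(W ∩ Ioo (0 : ℝ) 1)

/-- The transition measures. -/
noncomputable def kern (W : Set ℝ) : St W → Measure (St W) :=
  Sum.elim (fun _ => (trace (W ∩ Ioo 0 1)).map Sum.inr)
    (fun r => ENNReal.ofReal (r.1 / 2) • Measure.dirac (Sum.inr r))

theorem kern_inl {W : Set ℝ} (X : Set (St W)) (hX : MeasurableSet X) :
    kern W (Sum.inl ()) X = trace (W ∩ Ioo 0 1) (Sum.inr ⁻¹' X) :=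
  Measure.map_apply measurable_inr hX

theorem kern_inr {W : Set ℝ} (X : Set (St W)) (hX : MeasurableSet X) (r : ↥(W ∩ Ioo (0 : ℝ) 1)) :
    kern W (Sum.inr r) X = ENNReal.ofReal (r.1 / 2) * X.indicator 1 (Sum.inr r) := by
  change (ENNReal.ofReal (r.1 / 2) • Measure.dirac (Sum.inr r : St W)) X = _
  rw [Measure.smul_apply, Measure.dirac_apply' _ hX, smul_eq_mul]

theorem kern_inr_univ {W : Set ℝ} (r : ↥(W ∩ Ioo (0 : ℝ) 1)) :
    kern W (Sum.inr r) univ = ENNReal.ofReal (r.1 / 2) := by
  rw [kern_inr _ MeasurableSet.univ, indicator_univ, Pi.one_apply, mul_one]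

theorem kern_inl_univ {W : Set ℝ} (hW : Thick W) : kern W (Sum.inl ()) univ = 1 := by
  rw [kern_inl _ MeasurableSet.univ, preimage_univ]
  have := trace_apply hW.unit MeasurableSet.univ
  rw [preimage_univ] at this
  rw [this, μ_univ]

/-- The process on one extra state and the points of `W`. -/
noncomputable def proc (L : Type) (W : Set ℝ) (hW : Thick W) : LMP L (St W) where
  τ _ := kern W
  le_one := by
    rintro - (⟨⟩ | r)
    · exact (kern_inl_univ hW).le
    · rw [kern_inr_univ, ← ENNReal.ofReal_one]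
      refine ENNReal.ofReal_le_ofReal ?_
      have := r.2.2.2
      linarith
  measurable := by
    intro _ X hX
    have h1 : (fun s => kern W s X) = Sum.elim (fun _ => kern W (Sum.inl ()) X)
        (fun r => ENNReal.ofReal (r.1 / 2) * X.indicator 1 (Sum.inr r)) := by
      ext s
      cases s with
      | inl u => rfl
      | inr r => exact kern_inr X hX r
    rw [h1]
    refine Measurable.sumElim measurable_const ?_
    refine Measurable.mul ?_ ?_
    · exact ENNReal.measurable_ofReal.comp (measurable_subtype_coe.div_const 2)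
    · exact (measurable_one.indicator hX).comp measurable_inr

/-- The formulas define Borel sets that do not depend on the thick set. -/
theorem exists_borel (L : Type) (φ : Formula L) : ∃ (B : Set ℝ) (p : Prop), MeasurableSet B ∧
    ∀ (W : Set ℝ) (hW : Thick W), (Sat (proc L W hW) φ (Sum.inl ()) ↔ p) ∧
      ∀ r : ↥(W ∩ Ioo (0 : ℝ) 1), (Sat (proc L W hW) φ (Sum.inr r) ↔ r.1 ∈ B) := by
  induction φ with
  | top => exact ⟨univ, True, MeasurableSet.univ, fun W hW => ⟨Iff.rfl, fun r => Iff.rfl⟩⟩
  | and φ ψ ih1 ih2 =>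
    obtain ⟨B, p, hB, h1⟩ := ih1
    obtain ⟨C, q, hC, h2⟩ := ih2
    exact ⟨B ∩ C, p ∧ q, hB.inter hC, fun W hW => ⟨and_congr (h1 W hW).1 (h2 W hW).1,
      fun r => and_congr ((h1 W hW).2 r) ((h2 W hW).2 r)⟩⟩
  | dia a q φ ih =>
    obtain ⟨B, p, hB, h1⟩ := ih
    refine ⟨{r | ENNReal.ofReal (q.1 : ℝ) ≤ ENNReal.ofReal (r / 2) * B.indicator 1 r},
      ENNReal.ofReal (q.1 : ℝ) ≤ μ B, ?_, ?_⟩
    · refine measurableSet_le measurable_const ?_
      exact (ENNReal.measurable_ofReal.comp (measurable_id.div_const 2)).mul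
        (measurable_one.indicator hB)
    · intro W hW
      set X : Set (St W) := {t | Sat (proc L W hW) φ t} with hX
      have hinr : Sum.inr ⁻¹' X = (Subtype.val ⁻¹' B : Set ↥(W ∩ Ioo (0 : ℝ) 1)) := by
        ext r
        exact (h1 W hW).2 r
      have hXm : MeasurableSet X := by
        rw [measurableSet_sum_iff, hinr]
        refine ⟨?_, measurable_subtype_coe hB⟩
        exact Set.Subsingleton.measurableSet (subsingleton_of_subsingleton)
      constructor
      · change ENNReal.ofReal (q.1 : ℝ) ≤ kern W (Sum.inl ()) X ↔ _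
        rw [kern_inl X hXm, hinr, trace_apply hW.unit hB]
      · intro r
        change ENNReal.ofReal (q.1 : ℝ) ≤ kern W (Sum.inr r) X ↔
          ENNReal.ofReal (q.1 : ℝ) ≤ ENNReal.ofReal (r.1 / 2) * B.indicator 1 r.1
        rw [kern_inr X hXm]
        have h2 : X.indicator (1 : St W → ℝ≥0∞) (Sum.inr r) = B.indicator 1 r.1 := by
          by_cases h3 : r.1 ∈ B
          · have h4 : (Sum.inr r : St W) ∈ X := ((h1 W hW).2 r).2 h3
            rw [indicator_of_mem h3, indicator_of_mem h4]
            rfl
          · have h4 : (Sum.inr r : St W) ∉ X := fun h4 => h3 (((h1 W hW).2 r).1 h4)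
            rw [indicator_of_notMem h3, indicator_of_notMem h4]
        rw [h2]

/-- For every nonempty set of labels there are labelled Markov processes and logically equivalent
states that are not related by any sum-bisimulation. -/
theorem result (L : Type) [Nonempty L] : ∃ (S S' : Type) (_ : MeasurableSpace S)
    (_ : MeasurableSpace S') (M : LMP L S) (M' : LMP L S') (s : S) (s' : S'),
    LogEquiv M M' s s' ∧
      ¬ ∃ R : S ⊕ S' → S ⊕ S' → Prop, IsSumBisimulation M M' R ∧ R (Sum.inl s) (Sum.inr s') := by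
  obtain ⟨V, hV, hV'⟩ := exists_thick
  refine ⟨St V, St Vᶜ, inferInstance, inferInstance, proc L V hV, proc L Vᶜ hV', Sum.inl (),
    Sum.inl (), ?_, ?_⟩
  · intro φ
    obtain ⟨B, p, -, h⟩ := exists_borel L φ
    exact (h V hV).1.trans (h Vᶜ hV').1.symm
  · rintro ⟨R, ⟨hR, hb⟩, hss⟩
    obtain ⟨a⟩ : Nonempty L := inferInstance
    have hclosed : IsClosedFor R univ := fun _ _ _ _ => mem_univ _
    -- no point of `V` is related to a state of the second process
    have h1 : ∀ (r : ↥(V ∩ Ioo (0 : ℝ) 1)) (y : St Vᶜ), ¬ R (Sum.inl (Sum.inr r)) (Sum.inr y) := by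
      intro r y hry
      have h2 := hb _ _ hry (by simp) a univ hclosed MeasurableSet.univ MeasurableSet.univ
      change kern V (Sum.inr r) (Sum.inl ⁻¹' univ) = kern Vᶜ y (Sum.inr ⁻¹' univ) at h2
      rw [preimage_univ, preimage_univ, kern_inr_univ] at h2
      have hr := r.2.2
      rcases y with ⟨⟩ | r'
      · rw [kern_inl_univ hV', ← ENNReal.ofReal_one,
          ENNReal.ofReal_eq_ofReal_iff (by linarith [hr.1]) (by norm_num)] at h2
        linarith [hr.2]
      · rw [kern_inr_univ] at h2
        have hr' := r'.2.2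
        rw [ENNReal.ofReal_eq_ofReal_iff (by linarith [hr.1]) (by linarith [hr'.1])] at h2
        have h3 : r.1 = r'.1 := by linarith
        exact r'.2.1 (h3 ▸ r.2.1)
    -- the extra state is not related to the points of `V`
    have h2 : ∀ r : ↥(V ∩ Ioo (0 : ℝ) 1), ¬ R (Sum.inl (Sum.inr r)) (Sum.inl (Sum.inl ())) :=
      fun r hr => h1 r _ (hR.trans hr hss)
    let A : Set (St V ⊕ St Vᶜ) := {z | ∃ r : ↥(V ∩ Ioo (0 : ℝ) 1), R z (Sum.inl (Sum.inr r))}
    have hA : IsClosedFor R A := by
      rintro x ⟨r, hr⟩ y hy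
      rcases hy with hy | hy
      · exact ⟨r, hR.trans (hR.symm hy) hr⟩
      · exact ⟨r, hR.trans hy hr⟩
    have hAr : Sum.inr ⁻¹' A = (∅ : Set (St Vᶜ)) := by
      rw [eq_empty_iff_forall_notMem]
      rintro y ⟨r, hr⟩
      exact h1 r y (hR.symm hr)
    have hAl : Sum.inl ⁻¹' A = (Sum.inr '' univ : Set (St V)) := by
      ext x
      constructor
      · rintro ⟨r, hr⟩
        rcases x with ⟨⟩ | x
        · exact absurd (hR.symm hr) (h2 r)
        · exact ⟨x, mem_univ _, rfl⟩
      · rintro ⟨x, -, rfl⟩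
        exact ⟨x, hR.refl _⟩
    have h3 := hb _ _ hss (by simp) a A hA (by
      rw [hAl]; exact MeasurableSet.univ.inr_image) (by rw [hAr]; exact MeasurableSet.empty)
    change kern V (Sum.inl ()) (Sum.inl ⁻¹' A) = kern Vᶜ (Sum.inl ()) (Sum.inr ⁻¹' A) at h3
    rw [hAr, measure_empty, hAl, kern_inl _ MeasurableSet.univ.inr_image,
      preimage_image_eq _ Sum.inr_injective] at h3
    have h4 := trace_apply hV.unit MeasurableSet.univ
    rw [preimage_univ] at h4
    rw [h4, μ_univ] at h3
    exact one_ne_zero h3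

end Pool.Agent.Results.MP_e518dc_lc.NotSumBisimilar
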